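import Pool.Agent.Lib.TG.Basic
import Pool.Agent.Lib.LU2_h15.AbhA
import Pool.Agent.Lib.LU2_h15.Stage3B

/-!
# TANK G, G1, row GOOD

`A` a normal affine subalgebra of `K` with quotient field `K`, `P ≠ ⊤` a valuation ring of `K`
containing `A`, `κ` a field over which `K` has transcendence degree `≤ 1`, generated by ratios
`a / s`, `a, s ∈ A`, `s` a unit of `P`, and contained in `P`. Then `P` is the local ring of `A` at the
centre of `P` (`mem_locV_of_mem`), so every derivation preserving `A` preserves `P` (`der_mem`).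
-/

set_option autoImplicit false

open Polynomial

namespace Pool.Agent.TG63

open Pool.Agent.LU2 (locV le_locV locV_inv locV_mono locV_le locV_noeth locV_local IndRes IndVal
  indVal_one abhyankar)
open Pool.Agent.TG (ncl le_ncl locV_ncl_locV)

universe u

section Res

variable {κ K : Type u} [Field κ] [Field K] [Algebra κ K]

/-- In transcendence degree `≤ 1` the residue fields of nontrivial valuations are algebraic. -/
theorem exists_poly_of_trdeg (htr : Algebra.trdeg κ K ≤ 1) (W : ValuationSubring K)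
    (hκ : ∀ c : κ, algebraMap κ K c ∈ W) (hW : W ≠ ⊤) {r : K} (hr : r ∈ W) :
    ∃ h : κ[X], h ≠ 0 ∧ W.valuation (aeval r h) < 1 := by
  by_contra hcon
  push Not at hcon
  have hz : IndRes κ W (fun _ : Fin 1 => r) := by
    refine ⟨fun _ => hr, fun F hF => ?_⟩
    by_contra hF0
    have h1 := hcon (MvPolynomial.uniqueAlgEquiv κ (Fin 1) F) (by
      intro h0
      exact hF0 ((map_eq_zero_iff _ (MvPolynomial.uniqueAlgEquiv κ (Fin 1)).injective).1 h0))
    have h2 : aeval r (MvPolynomial.uniqueAlgEquiv κ (Fin 1) F) =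
        MvPolynomial.aeval (fun _ : Fin 1 => r) F := by
      have h3 : (aeval r).comp (MvPolynomial.uniqueAlgEquiv κ (Fin 1)).toAlgHom =
          MvPolynomial.aeval (fun _ : Fin 1 => r) := by
        apply MvPolynomial.algHom_ext
        intro i
        simp
      exact DFunLike.congr_fun h3 F
    rw [h2] at h1
    exact absurd hF (not_lt.2 h1)
  obtain ⟨x, hx⟩ := indVal_one hW
  have h2 := (abhyankar hκ hx hz).trans htr
  have h3 : (1 + 1 : ℕ) ≤ 1 := by exact_mod_cast h2
  omega

/-- The same with a polynomial whose constant coefficient is not `0`, for units. -/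
theorem exists_poly_of_trdeg' (htr : Algebra.trdeg κ K ≤ 1) (W : ValuationSubring K)
    (hκ : ∀ c : κ, algebraMap κ K c ∈ W) (hW : W ≠ ⊤) {r : K} (hr : W.valuation r = 1) :
    ∃ h : κ[X], h.coeff 0 ≠ 0 ∧ W.valuation (aeval r h) < 1 := by
  obtain ⟨h, h0, h1⟩ := exists_poly_of_trdeg htr W hκ hW
    ((W.valuation_le_one_iff r).1 hr.le)
  have key : ∀ n : ℕ, ∀ h : κ[X], h.natDegree ≤ n → h ≠ 0 → W.valuation (aeval r h) < 1 →
      ∃ h : κ[X], h.coeff 0 ≠ 0 ∧ W.valuation (aeval r h) < 1 := by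
    intro n
    induction n with
    | zero =>
      intro h hn h0 h1
      refine ⟨h, ?_, h1⟩
      rw [eq_C_of_natDegree_le_zero hn] at h0
      intro h2
      rw [h2, map_zero] at h0
      exact h0 rfl
    | succ n ih =>
      intro h hn h0 h1
      by_cases hc : h.coeff 0 = 0
      · have h2 : h = h.divX * X := by
          conv_lhs => rw [← divX_mul_X_add h, hc, map_zero, add_zero]
        refine ih h.divX ?_ ?_ ?_
        · rw [natDegree_divX_eq_natDegree_tsub_one]; omega
        · intro h3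
          rw [h3, zero_mul] at h2
          exact h0 h2
        · rw [h2, map_mul, aeval_X, map_mul, hr, mul_one] at h1
          exact h1
      · exact ⟨h, hc, h1⟩
  exact key _ h le_rfl h0 h1

end Res

section Good

variable {k K : Type u} [Field k] [Field K] [Algebra k K]

/-- `κ ≤ locV P A` if `κ` is generated by elements of `locV P A` and contained in `P`. -/
theorem adjoin_le_locV {A : Subalgebra k K} {P : ValuationSubring K} {S : Set K}
    (hS : ∀ s ∈ S, s ∈ locV P A) (hP : ∀ c ∈ IntermediateField.adjoin k S, c ∈ P) :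
    ∀ c ∈ IntermediateField.adjoin k S, c ∈ locV P A := by
  have hle : Algebra.adjoin k S ≤ locV P A := Algebra.adjoin_le hS
  intro c hc
  rw [IntermediateField.mem_adjoin_iff_div] at hc
  obtain ⟨a, ha, b, hb, rfl⟩ := hc
  rcases eq_or_ne b 0 with rfl | hb0
  · rw [div_zero]; exact (locV P A).zero_mem
  have hbK : b ∈ IntermediateField.adjoin k S := IntermediateField.algebra_adjoin_le_adjoin k S hb
  have h1 : P.valuation b = 1 := by
    apply le_antisymm
    · exact (P.valuation_le_one_iff _).2 (hP _ hbK)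
    · have h2 : P.valuation b⁻¹ ≤ 1 :=
        (P.valuation_le_one_iff _).2 (hP _ ((IntermediateField.adjoin k S).inv_mem hbK))
      rw [map_inv₀] at h2
      exact (inv_le_one₀ (zero_lt_iff.2 ((Valuation.ne_zero_iff _).2 hb0))).1 h2
  rw [div_eq_mul_inv]
  exact (locV P A).mul_mem (hle ha) (locV_inv (hle hb) h1)

variable {A : Subalgebra k K} {P : ValuationSubring K}

/-- `P` is the local ring of `A` at its centre. -/
theorem mem_locV_of_mem (hfg : A.FG) (hn : ncl A = A)
    (hfr : ∀ x : K, ∃ a ∈ A, ∃ b ∈ A, b ≠ 0 ∧ x = a / b) (hA : ∀ a ∈ A, a ∈ P) (hP : P ≠ ⊤)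
    {κ : IntermediateField k K} (hκ : ∀ c ∈ κ, c ∈ locV P A) (htr : Algebra.trdeg κ K ≤ 1) :
    ∀ x ∈ P, x ∈ locV P A := by
  have hRP : ∀ x ∈ locV P A, x ∈ P := Pool.Agent.LU2.locV_mem hA
  have h1 : IsNoetherianRing (locV P A) := locV_noeth P A hA hfg
  have h2 : IsLocalRing (locV P A) := locV_local P A hA
  -- fractions
  have hfr' : ∀ x : K, ∃ a ∈ locV P A, ∃ b ∈ locV P A, b ≠ 0 ∧ x = a / b := fun x => by
    obtain ⟨a, ha, b, hb, h⟩ := hfr x
    exact ⟨a, le_locV _ ha, b, le_locV _ hb, h⟩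
  have hloc : IsFractionRing (locV P A) K := by
    refine ⟨fun y => ?_, fun x => ?_, fun {x y} hxy => ?_⟩
    · rw [isUnit_iff_ne_zero]
      exact fun h0 => nonZeroDivisors.ne_zero y.2 (Subtype.ext h0)
    · obtain ⟨a, ha, b, hb, hb0, hx⟩ := hfr' x
      refine ⟨⟨⟨a, ha⟩, ⟨⟨b, hb⟩, mem_nonZeroDivisors_of_ne_zero fun h0 =>
        hb0 (congrArg Subtype.val h0)⟩⟩, ?_⟩
      show x * b = a
      rw [hx, div_mul_cancel₀ _ hb0]
    · exact ⟨1, by rw [Subtype.ext (show (x : K) = y from hxy)]⟩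
  -- normality
  have h3 : IsIntegrallyClosed (locV P A) := by
    rw [isIntegrallyClosed_iff K]
    intro x hx
    have h4 : x ∈ locV P A := by
      have h5 : x ∈ locV P (ncl (locV P A)) := le_locV _ hx
      rwa [locV_ncl_locV, hn] at h5
    exact ⟨⟨x, h4⟩, rfl⟩
  -- the elements of the maximal ideal
  have hmax : ∀ x : locV P A, x ∈ IsLocalRing.maximalIdeal (locV P A) → P.valuation (x : K) < 1 := by
    intro x hx
    rw [IsLocalRing.mem_maximalIdeal, mem_nonunits_iff] at hx
    refine lt_of_le_of_ne ((P.valuation_le_one_iff _).2 (hRP _ x.2)) fun h5 => hx ?_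
    have h6 : (x : K)⁻¹ ∈ locV P A := locV_inv x.2 h5
    refine IsUnit.of_mul_eq_one ⟨_, h6⟩ (Subtype.ext (mul_inv_cancel₀ ?_))
    intro h0
    rw [h0, map_zero] at h5
    exact zero_ne_one h5
  -- dimension one
  have h4 : ∀ q : Ideal (locV P A), q ≠ ⊥ → q.IsPrime → q = IsLocalRing.maximalIdeal _ := by
    intro q hq0 hq
    by_contra hne
    have hlt : ¬ IsLocalRing.maximalIdeal (locV P A) ≤ q := fun hle =>
      hne (le_antisymm (IsLocalRing.le_maximalIdeal hq.ne_top) hle)
    obtain ⟨r, hr, hrq⟩ := Set.not_subset.1 hlt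
    obtain ⟨g, hg, hg0⟩ := Submodule.exists_mem_ne_zero_of_ne_bot hq0
    have hr0 : (r : K) ≠ 0 := fun h0 => hrq (by rw [Subtype.ext (a1 := r) (a2 := 0) h0]; exact q.zero_mem)
    -- the ring `R[1/r]`
    let B : Subring K := (Algebra.adjoin (locV P A) {(r : K)⁻¹}).toSubring
    have hBel : ∀ x ∈ B, ∃ (n : ℕ) (a : locV P A), x * (r : K) ^ n = a := by
      intro x hx
      change x ∈ Algebra.adjoin (locV P A) {(r : K)⁻¹} at hx
      induction hx using Algebra.adjoin_induction with
      | mem x hx =>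
        rw [Set.mem_singleton_iff] at hx
        exact ⟨1, 1, by rw [hx, pow_one, inv_mul_cancel₀ hr0]; rfl⟩
      | algebraMap a => exact ⟨0, a, by rw [pow_zero, mul_one]; rfl⟩
      | add x y _ _ ihx ihy =>
        obtain ⟨m, a, ha⟩ := ihx
        obtain ⟨n, b, hb⟩ := ihy
        refine ⟨m + n, a * r ^ n + b * r ^ m, ?_⟩
        push_cast
        rw [← ha, ← hb]
        ring
      | mul x y _ _ ihx ihy =>
        obtain ⟨m, a, ha⟩ := ihx
        obtain ⟨n, b, hb⟩ := ihy
        refine ⟨m + n, a * b, ?_⟩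
        push_cast
        rw [← ha, ← hb]
        ring
    let I : Ideal B :=
      { carrier := {x | ∃ (n : ℕ) (a : locV P A), a ∈ q ∧ (x : K) * (r : K) ^ n = a}
        zero_mem' := ⟨0, 0, q.zero_mem, by simp⟩
        add_mem' := by
          rintro x y ⟨m, a, ha, hx⟩ ⟨n, b, hb, hy⟩
          refine ⟨m + n, a * r ^ n + b * r ^ m, q.add_mem (q.mul_mem_right _ ha)
            (q.mul_mem_right _ hb), ?_⟩
          push_cast
          rw [← hx, ← hy]
          ring
        smul_mem' := by
          rintro c x ⟨m, a, ha, hx⟩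
          obtain ⟨n, b, hb⟩ := hBel c c.2
          refine ⟨m + n, b * a, q.mul_mem_left _ ha, ?_⟩
          push_cast
          rw [← hx, ← hb, smul_eq_mul]
          push_cast
          ring }
    have hI : I ≠ ⊤ := by
      rw [Ne, Ideal.eq_top_iff_one]
      rintro ⟨n, a, ha, h⟩
      rw [show ((1 : B) : K) = 1 from rfl, one_mul] at h
      have h5 : r ^ n = a := Subtype.ext (by push_cast; exact h)
      rw [← h5] at ha
      exact hrq (hq.mem_of_pow_mem n ha)
    obtain ⟨W, hBW, hIW⟩ := Ideal.image_subset_nonunits_valuationSubring I hI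
    have hRW : ∀ x : locV P A, (x : K) ∈ W := fun x =>
      hBW (show (x : K) ∈ Algebra.adjoin (locV P A) {(r : K)⁻¹} from
        Subalgebra.algebraMap_mem _ x)
    have hrW : W.valuation (r : K) = 1 := by
      apply le_antisymm
      · exact (W.valuation_le_one_iff _).2 (hRW r)
      · have h5 : (r : K)⁻¹ ∈ W := hBW (Algebra.subset_adjoin (Set.mem_singleton _))
        have h6 : W.valuation (r : K)⁻¹ ≤ 1 := (W.valuation_le_one_iff _).2 h5
        rw [map_inv₀] at h6
        exact (inv_le_one₀ (zero_lt_iff.2 ((Valuation.ne_zero_iff _).2 hr0))).1 h6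
    have hgW : W.valuation (g : K) < 1 := by
      refine (ValuationSubring.mem_nonunits_iff (A := W)).1 (hIW ⟨⟨(g : K), ?_⟩, ⟨0, g, hg, ?_⟩, rfl⟩)
      · exact Subalgebra.algebraMap_mem (Algebra.adjoin (locV P A) {(r : K)⁻¹}) g
      · rw [pow_zero, mul_one]
    have hWt : W ≠ ⊤ := by
      intro h5
      have h6 : (g : K)⁻¹ ∈ W := by rw [h5]; exact ValuationSubring.mem_top _
      have hg0' : (g : K) ≠ 0 := fun h0 => hg0 (Subtype.ext h0)
      have h7 : W.valuation (g : K)⁻¹ ≤ 1 := (W.valuation_le_one_iff _).2 h6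
      rw [map_inv₀] at h7
      exact absurd ((inv_le_one₀ (zero_lt_iff.2 ((Valuation.ne_zero_iff _).2 hg0'))).1 h7)
        (not_le.2 hgW)
    obtain ⟨h, h0, hv⟩ := exists_poly_of_trdeg' (κ := κ) htr W
      (fun c => hRW ⟨c, hκ _ c.2⟩) hWt hrW
    -- but `h(r)` is a unit of `P`
    have hmem : ∀ h : κ[X], aeval (r : K) h ∈ locV P A := by
      intro h
      rw [aeval_eq_sum_range]
      refine (locV P A).sum_mem fun i _ => ?_
      rw [Algebra.smul_def]
      exact (locV P A).mul_mem (hκ _ (h.coeff i).2) ((locV P A).pow_mem r.2 i)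
    have hu : P.valuation (aeval (r : K) h) = 1 := by
      have h5 : aeval (r : K) h = aeval (r : K) h.divX * (r : K) + (h.coeff 0 : K) := by
        conv_lhs => rw [← divX_mul_X_add h]
        rw [map_add, map_mul, aeval_X, aeval_C]
        rfl
      have h6 : P.valuation (aeval (r : K) h.divX * (r : K)) < 1 := by
        rw [map_mul]
        exact lt_of_le_of_lt (mul_le_of_le_one_left'
          ((P.valuation_le_one_iff _).2 (hRP _ (hmem _)))) (hmax r hr)
      have h7 : P.valuation ((h.coeff 0 : κ) : K) = 1 := by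
        have h8 : ((h.coeff 0 : κ) : K) ∈ P := hRP _ (hκ _ (h.coeff 0).2)
        have h9 : (((h.coeff 0)⁻¹ : κ) : K) ∈ P := hRP _ (hκ _ ((h.coeff 0)⁻¹ : κ).2)
        apply le_antisymm
        · exact (P.valuation_le_one_iff _).2 h8
        · have h10 : P.valuation ((((h.coeff 0)⁻¹ : κ) : K)) ≤ 1 := (P.valuation_le_one_iff _).2 h9
          have h11 : ((h.coeff 0 : κ) : K) ≠ 0 := fun h0' => h0 (Subtype.ext h0')
          rw [show (((h.coeff 0)⁻¹ : κ) : K) = (((h.coeff 0 : κ) : K))⁻¹ from rfl, map_inv₀] at h10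
          exact (inv_le_one₀ (zero_lt_iff.2 ((Valuation.ne_zero_iff _).2 h11))).1 h10
      rw [h5]
      rw [Valuation.map_add_eq_of_lt_right _ (by rw [h7]; exact h6), h7]
    have h5 : (aeval (r : K) h)⁻¹ ∈ W := by
      exact hRW (⟨(aeval (r : K) h)⁻¹, locV_inv (hmem h) hu⟩ : locV P A)
    have h6 : W.valuation (aeval (r : K) h)⁻¹ ≤ 1 := (W.valuation_le_one_iff _).2 h5
    rw [map_inv₀] at h6
    have h7 : aeval (r : K) h ≠ 0 := by
      intro h8
      rw [h8, map_zero] at hu
      exact zero_ne_one hu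
    exact absurd ((inv_le_one₀ (zero_lt_iff.2 ((Valuation.ne_zero_iff _).2 h7))).1 h6)
      (not_le.2 hv)
  have h5' : (IsIntegrallyClosed (locV P A) ∧ ∀ q : Ideal (locV P A), q ≠ ⊥ → q.IsPrime →
      q = IsLocalRing.maximalIdeal _) ↔ ValuationRing (locV P A) :=
    (tfae_of_isNoetherianRing_of_isLocalRing_of_isDomain (locV P A)).out 3 1
  have h5 : ValuationRing (locV P A) := h5'.1 ⟨h3, h4⟩
  intro x hx
  rcases ValuationRing.isInteger_or_isInteger (locV P A) x with ⟨y, hy⟩ | ⟨y, hy⟩
  · rw [← hy]; exact y.2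
  · have hy' : (y : K) = x⁻¹ := hy
    rcases eq_or_ne x 0 with rfl | hx0
    · exact (locV P A).zero_mem
    have h6 : P.valuation (y : K) = 1 := by
      apply le_antisymm
      · exact (P.valuation_le_one_iff _).2 (hRP _ y.2)
      · rw [hy', map_inv₀]
        have h7 : P.valuation x ≤ 1 := (P.valuation_le_one_iff _).2 hx
        exact (one_le_inv₀ (zero_lt_iff.2 ((Valuation.ne_zero_iff _).2 hx0))).2 h7
    have h7 := locV_inv y.2 h6
    rwa [hy', inv_inv] at h7

/-- A derivation which preserves `A` preserves `locV P A`. -/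
theorem der_mem_locV (D : Derivation k K K) (hD : ∀ a ∈ A, D a ∈ A) :
    ∀ x ∈ locV P A, D x ∈ locV P A := by
  rintro x ⟨a, ha, b, hb, hb1, rfl⟩
  have hb0 : b ≠ 0 := by rintro rfl; simp at hb1
  have h1 : D (a / b) = (b * D a - a * D b) / (b * b) := by
    have h2 : D (a / b * b) = D a := by rw [div_mul_cancel₀ _ hb0]
    rw [D.leibniz, smul_eq_mul, smul_eq_mul] at h2
    field_simp
    field_simp at h2
    linear_combination h2
  rw [h1]
  exact ⟨_, A.sub_mem (A.mul_mem hb (hD _ ha)) (A.mul_mem ha (hD _ hb)), _, A.mul_mem hb hb, by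
    rw [map_mul, hb1, one_mul], rfl⟩

/-- **GOOD.** Derivations preserving `A` preserve `P`. -/
theorem der_mem (hfg : A.FG) (hn : ncl A = A)
    (hfr : ∀ x : K, ∃ a ∈ A, ∃ b ∈ A, b ≠ 0 ∧ x = a / b) (hA : ∀ a ∈ A, a ∈ P) (hP : P ≠ ⊤)
    {κ : IntermediateField k K} (hκ : ∀ c ∈ κ, c ∈ locV P A) (htr : Algebra.trdeg κ K ≤ 1)
    (D : Derivation k K K) (hD : ∀ a ∈ A, D a ∈ A) : ∀ x ∈ P, D x ∈ P := fun x hx =>
  Pool.Agent.LU2.locV_mem hA _ (der_mem_locV D hD x (mem_locV_of_mem hfg hn hfr hA hP hκ htr x hx))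

end Good

end Pool.Agent.TG63
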